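import Pool.Agent.W181.Mom.App3

/-!
Moments of zeta of every real order `β ≥ 2` on the critical line: unconditional lower bounds of the
predicted order over all intervals `[T, T + U]`, `U ≥ (log T)^B`.
-/

open Filter

theorem Pool.Agent.Results.MP_f9aece_nt.AllRealWindows.result (β : ℝ) (hβ : 2 ≤ β) :
    ∃ c : ℝ, 0 < c ∧ ∃ B : ℝ, 0 < B ∧ ∀ᶠ T : ℝ in atTop, ∀ U : ℝ, Real.log T ^ B ≤ U →
      c * Real.log U ^ (β ^ 2 / 4) ≤
        U⁻¹ * ∫ t in T..(T + U), ‖riemannZeta (1 / 2 + t * Complex.I)‖ ^ β := by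
  obtain ⟨c, hc, B, hB, h⟩ := Pool.Agent.W181.Mom.all_real (β / 2) (by linarith)
  refine ⟨c, hc, B, hB, ?_⟩
  filter_upwards [h, eventually_gt_atTop 1, Real.tendsto_log_atTop.eventually_gt_atTop 1]
    with T hT hT0 hT1 U hU
  have hU1 : 1 ≤ U := le_trans (Real.one_le_rpow hT1.le hB.le) hU
  have hU0 : 0 < U := by linarith
  have hT' := hT U hU
  rw [show (β / 2) ^ 2 = β ^ 2 / 4 by ring, show 2 * (β / 2) = β by ring] at hT'
  rw [← div_eq_inv_mul, le_div_iff₀ hU0]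
  calc c * Real.log U ^ (β ^ 2 / 4) * U = c * (U * Real.log U ^ (β ^ 2 / 4)) := by ring
    _ ≤ _ := hT'
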