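import Pool.Agent.TH982.MA.Zeta

/-!
An unconditional law for the maximal averages of the powers of zeta on the critical line.
-/

open MeasureTheory Filter Topology

namespace Pool.Agent.Results.MP_f9aece_nt.MaximalLaw

/-- `a β T`: the mean of `|zeta(1/2+it)|^β` over `[0,T]`. -/
noncomputable def a (β T : ℝ) : ℝ :=
  (∫ t in (0:ℝ)..T, ‖riemannZeta (1 / 2 + t * Complex.I)‖ ^ β) / T

/-- `E β c T`: the set of the `t` in `[0,T]` that start a window `[t,t+h]`, contained in `[0,T]`,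
over which the mean of `|zeta(1/2+iu)|^β` exceeds `c`. -/
def E (β c T : ℝ) : Set ℝ :=
  {t | 0 ≤ t ∧ ∃ h : ℝ, 0 < h ∧ t + h ≤ T ∧
    c < (∫ u in t..(t + h), ‖riemannZeta (1 / 2 + u * Complex.I)‖ ^ β) / h}

/-- `V β c T`: the Lebesgue measure of `E β c T`. -/
noncomputable def V (β c T : ℝ) : ℝ := (volume (E β c T)).toReal

theorem result (β : ℝ) (hβ : 2 < β) (δ : ℝ) (hδ : δ < β / 2) (ε : ℝ) (hε : 0 < ε) :
    ∀ᶠ T : ℝ in atTop, ∀ c : ℝ, (∀ s : ℝ, 0 < s → s ≤ T → a β s ≤ c) →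
      c ≤ a β T * Real.log T ^ δ → |c * V β c T / (T * a β T) - 1| ≤ ε := by
  have h := Pool.Agent.TH982.MA.law Pool.Agent.TH982.MA.zz_data (k := β / 2) (by linarith) hδ hε
  have e : 2 * (β / 2) = β := by ring
  have e1 : Pool.Agent.TH982.MA.pw Pool.Agent.TH982.MA.zz (β / 2)
      = fun t : ℝ => ‖riemannZeta (1 / 2 + t * Complex.I)‖ ^ β := by
    funext t
    unfold Pool.Agent.TH982.MA.pw Pool.Agent.TH982.MA.zz
    rw [e]
  rw [e1] at h
  filter_upwards [h, eventually_gt_atTop 0] with T h hT c hs hc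
  have h2 := h c hs hc
  have e2 : T * a β T = Pool.Agent.TH982.MA.Fi
      (fun t : ℝ => ‖riemannZeta (1 / 2 + t * Complex.I)‖ ^ β) T := by
    unfold a Pool.Agent.TH982.MA.Fi
    rw [mul_comm]
    exact div_mul_cancel₀ _ hT.ne'
  rw [e2]
  exact h2

end Pool.Agent.Results.MP_f9aece_nt.MaximalLaw
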