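import Pool.Agent.TH806.N4.Abs

set_option autoImplicit false

/-!
MP_f9aece_nt, exponents `β → 4`: unconditional sharp one-sided asymptotics, with Ingham's constant `c(4) = 1/(2π²)`.
For every `ε > 0` there is `δ > 0` such that, for the average `a(T)` of the problem and also for the averages over
short intervals `[T, T + H]` with `T/(log T)^α ≤ H ≤ T`, `α < 1/2`, simultaneously in `β`:
for `4 - δ ≤ β ≤ 4` the moment is at most `(1/(2π²) + ε) (log T)^(β²/4)`, and for `4 ≤ β ≤ 4 + δ` it is at least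
`(1/(2π²) - ε) (log T)^(β²/4)`.
-/

open Filter

theorem Pool.Agent.Results.MP_f9aece_nt.SharpNearFourthMoment.result (ε : ℝ) (hε : 0 < ε) :
    ∃ δ : ℝ, 0 < δ ∧
      (∀ x : ℝ, ∀ᶠ T : ℝ in atTop,
        (∀ β : ℝ, 4 - δ ≤ β → β ≤ 4 →
          ∫ u in (0:ℝ)..1, ‖riemannZeta (1 / 2 + x * Complex.I + (u * T) * Complex.I)‖ ^ β ≤
            (1 / (2 * Real.pi ^ 2) + ε) * Real.exp (β ^ 2 / 4 * Real.log (Real.log T))) ∧
        (∀ β : ℝ, 4 ≤ β → β ≤ 4 + δ →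
          (1 / (2 * Real.pi ^ 2) - ε) * Real.exp (β ^ 2 / 4 * Real.log (Real.log T)) ≤
            ∫ u in (0:ℝ)..1, ‖riemannZeta (1 / 2 + x * Complex.I + (u * T) * Complex.I)‖ ^ β)) ∧
      (∀ α : ℝ, 0 ≤ α → α < 1 / 2 → ∀ᶠ T : ℝ in atTop, ∀ H : ℝ, T / Real.log T ^ α ≤ H → H ≤ T →
        (∀ β : ℝ, 4 - δ ≤ β → β ≤ 4 →
          ∫ t in T..(T + H), ‖riemannZeta (1 / 2 + t * Complex.I)‖ ^ β ≤
            (1 / (2 * Real.pi ^ 2) + ε) * (H * Real.exp (β ^ 2 / 4 * Real.log (Real.log T)))) ∧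
        (∀ β : ℝ, 4 ≤ β → β ≤ 4 + δ →
          (1 / (2 * Real.pi ^ 2) - ε) * (H * Real.exp (β ^ 2 / 4 * Real.log (Real.log T))) ≤
            ∫ t in T..(T + H), ‖riemannZeta (1 / 2 + t * Complex.I)‖ ^ β)) := by
  obtain ⟨hS, hA⟩ := Pool.Agent.TH806.N4.a_SHT
  obtain ⟨δ1, h1, hS⟩ := hS ε hε
  obtain ⟨δ2, h2, hA⟩ := hA ε hε
  have hexp : ∀ (T β : ℝ), 1 ≤ Real.log T →
      Real.exp (β ^ 2 / 4 * Real.log (Real.log T)) = Real.log T ^ (β ^ 2 / 4) := by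
    intro T β hL
    rw [Real.rpow_def_of_pos (by linarith), mul_comm]
  refine ⟨min δ1 δ2, lt_min h1 h2, fun x => ?_, fun α ha0 ha1 => ?_⟩
  · filter_upwards [hA x, Real.tendsto_log_atTop.eventually_ge_atTop 1, eventually_gt_atTop 0] with T h3 hL hT
    have e2 : ∀ β : ℝ, ∫ u in (0:ℝ)..1, ‖riemannZeta (1 / 2 + x * Complex.I + (u * T) * Complex.I)‖ ^ β =
        Pool.Agent.TH806.N4.aM β x T := by
      intro β
      rfl
    refine ⟨fun β hb1 hb2 => ?_, fun β hb1 hb2 => ?_⟩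
    · rw [e2, hexp T β hL]
      exact h3.1 β (by linarith [min_le_right δ1 δ2]) hb2
    · rw [e2, hexp T β hL]
      exact h3.2 β hb1 (by linarith [min_le_right δ1 δ2])
  · filter_upwards [hS α ha0 ha1, Real.tendsto_log_atTop.eventually_ge_atTop 1] with T h3 hL H hH1 hH2
    have h4 := h3 H hH1 hH2
    refine ⟨fun β hb1 hb2 => ?_, fun β hb1 hb2 => ?_⟩
    · rw [hexp T β hL]
      exact h4.1 β (by linarith [min_le_left δ1 δ2]) hb2
    · rw [hexp T β hL]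
      exact h4.2 β hb1 (by linarith [min_le_left δ1 δ2])
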